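import Pool.Agent.K1H59.VX.Stm2
import Pool.Agent.H951R3.W.W1

set_option autoImplicit false

/-!
Counting integral points on a line, in at most two clusters at finitely many places (for
`Pool.Agent.K1H59.VX.S_GCL`).
-/

namespace Pool.Agent.K1H31.VX

open Finset
open Pool.Agent.K1H59.VX (nval)

lemma nval_nonneg (v : Option ℕ) {B : ℝ} (hB : 0 ≤ B) (k : ℕ) (a : ℤ) : 0 ≤ nval v B k a := by
  cases v with
  | none => simp only [nval]; positivity
  | some p =>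
    simp only [nval]
    have := padicNorm.nonneg (p := p) (a : ℚ)
    exact_mod_cast this

lemma nval_neg (v : Option ℕ) (B : ℝ) (k : ℕ) (a : ℤ) : nval v B k (-a) = nval v B k a := by
  cases v with
  | none => simp only [nval]; push_cast; rw [abs_neg]
  | some p =>
    simp only [nval]
    push_cast
    rw [padicNorm.neg]

lemma nval_tri (v : Option ℕ) (hv : ∀ p, v = some p → p.Prime) {B : ℝ} (hB : 0 ≤ B) (k : ℕ)
    (a b : ℤ) : nval v B k (a + b) ≤ nval v B k a + nval v B k b := by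
  cases v with
  | none =>
    simp only [nval]
    rw [← add_div]
    refine div_le_div_of_nonneg_right ?_ (by positivity)
    push_cast
    exact abs_add_le _ _
  | some p =>
    have : Fact p.Prime := ⟨hv p rfl⟩
    simp only [nval]
    have h1 : padicNorm p ((a : ℚ) + (b : ℚ)) ≤ padicNorm p (a : ℚ) + padicNorm p (b : ℚ) :=
      padicNorm.triangle_ineq _ _
    push_cast
    exact_mod_cast h1

/-- splitting into `2 ^ |V|` classes -/
lemma card_classes {α ι : Type*} [DecidableEq ι] (V : Finset ι) (D : ι → α → α → Prop) (K : ℝ) :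
    ∀ (X : Finset α), (∀ v ∈ V, ∃ col : α → Prop, ∀ P ∈ X, ∀ P' ∈ X, (col P ↔ col P') → D v P P') →
      (∀ Y ⊆ X, (∀ v ∈ V, ∀ P ∈ Y, ∀ P' ∈ Y, D v P P') → (Y.card : ℝ) ≤ K) →
      (X.card : ℝ) ≤ 2 ^ V.card * K := by
  classical
  induction V using Finset.induction_on with
  | empty =>
    intro X _ h
    simpa using h X subset_rfl (by simp)
  | insert v V hv ih =>
    intro X hcol hK
    obtain ⟨col, hc⟩ := hcol v (mem_insert_self _ _)
    have h1 := ih (X.filter col) (fun w hw => by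
      obtain ⟨c, hc'⟩ := hcol w (mem_insert_of_mem hw)
      exact ⟨c, fun P hP P' hP' => hc' P (mem_filter.1 hP).1 P' (mem_filter.1 hP').1⟩)
      (fun Y hY hD => hK Y (hY.trans (filter_subset _ _)) (fun w hw P hP P' hP' => by
        rcases mem_insert.1 hw with rfl | hw
        · exact hc P (mem_filter.1 (hY hP)).1 P' (mem_filter.1 (hY hP')).1
            (iff_of_true (mem_filter.1 (hY hP)).2 (mem_filter.1 (hY hP')).2)
        · exact hD w hw P hP P' hP'))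
    have h2 := ih (X.filter (fun P => ¬ col P)) (fun w hw => by
      obtain ⟨c, hc'⟩ := hcol w (mem_insert_of_mem hw)
      exact ⟨c, fun P hP P' hP' => hc' P (mem_filter.1 hP).1 P' (mem_filter.1 hP').1⟩)
      (fun Y hY hD => hK Y (hY.trans (filter_subset _ _)) (fun w hw P hP P' hP' => by
        rcases mem_insert.1 hw with rfl | hw
        · exact hc P (mem_filter.1 (hY hP)).1 P' (mem_filter.1 (hY hP')).1
            (iff_of_false (mem_filter.1 (hY hP)).2 (mem_filter.1 (hY hP')).2)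
        · exact hD w hw P hP P' hP'))
    have h3 := Finset.card_filter_add_card_filter_not (s := X) col
    have h4 : (X.card : ℝ) = ((X.filter col).card : ℝ) + ((X.filter (fun P => ¬ col P)).card : ℝ) := by
      exact_mod_cast h3.symm
    rw [h4, card_insert_of_notMem hv, pow_succ]
    linarith

/-- two-colouring -/
lemma two_col {α : Type*} (X : Finset α) (N : α → α → Prop) (hs : ∀ P P', N P P' → N P' P)
    (h : ∀ P ∈ X, ∀ P' ∈ X, ∀ P'' ∈ X, N P P' ∨ N P P'' ∨ N P' P'') :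
    ∃ col : α → Prop, ∀ P ∈ X, ∀ P' ∈ X, (col P ↔ col P') → N P P' ∨ ∃ c ∈ X, N P c ∧ N c P' := by
  classical
  by_cases hf : ∃ c1 ∈ X, ∃ c2 ∈ X, ¬ N c1 c2
  · obtain ⟨c1, hc1, c2, hc2, hn⟩ := hf
    refine ⟨fun P => N c1 P, fun P hP P' hP' hcol => Or.inr ?_⟩
    by_cases h1 : N c1 P
    · exact ⟨c1, hc1, hs _ _ h1, hcol.1 h1⟩
    · have h1' : ¬ N c1 P' := fun h => h1 (hcol.2 h)
      have h2 : N c2 P := by
        rcases h c1 hc1 c2 hc2 P hP with h | h | h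
        · exact absurd h hn
        · exact absurd h h1
        · exact h
      have h2' : N c2 P' := by
        rcases h c1 hc1 c2 hc2 P' hP' with h | h | h
        · exact absurd h hn
        · exact absurd h h1'
        · exact h
      exact ⟨c2, hc2, hs _ _ h2, h2'⟩
  · push Not at hf
    exact ⟨fun _ => True, fun P hP P' hP' _ => Or.inl (hf P hP P' hP')⟩

/-- points on a line -/
lemma line_param (X : Finset (ℤ × ℤ)) (hX : 2 ≤ X.card)
    (h : ∀ P ∈ X, ∀ P' ∈ X, ∀ P'' ∈ X,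
      (P'.1 - P.1) * (P''.2 - P.2) - (P'.2 - P.2) * (P''.1 - P.1) = 0) :
    ∃ (b : ℤ × ℤ) (f : ℤ × ℤ → ℤ), IsCoprime b.1 b.2 ∧ ∀ P ∈ X, ∀ P' ∈ X,
      P.1 - P'.1 = (f P - f P') * b.1 ∧ P.2 - P'.2 = (f P - f P') * b.2 := by
  classical
  obtain ⟨P0, hP0, P1, hP1, hne⟩ := Finset.one_lt_card.1 (by omega : 1 < X.card)
  set u : ℤ := P1.1 - P0.1 with hu
  set w : ℤ := P1.2 - P0.2 with hw
  have h0 : u ≠ 0 ∨ w ≠ 0 := by
    by_contra hcon
    push Not at hcon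
    apply hne
    apply Prod.ext <;> omega
  have hg : Int.gcd u w ≠ 0 := by
    intro hg
    rw [Int.gcd_eq_zero_iff] at hg
    rcases h0 with h0 | h0
    · exact h0 hg.1
    · exact h0 hg.2
  obtain ⟨b1, hb1⟩ := Int.gcd_dvd_left u w
  obtain ⟨b2, hb2⟩ := Int.gcd_dvd_right u w
  set g : ℤ := (Int.gcd u w : ℤ) with hgdef
  have hg0 : g ≠ 0 := by rw [hgdef]; exact_mod_cast hg
  have hbez : g = u * Int.gcdA u w + w * Int.gcdB u w := Int.gcd_eq_gcd_ab u w
  have hcop : b1 * Int.gcdA u w + b2 * Int.gcdB u w = 1 := by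
    have : g * (b1 * Int.gcdA u w + b2 * Int.gcdB u w) = g * 1 := by
      rw [mul_one]
      conv_rhs => rw [hbez, hb1, hb2]
      have e1 : (u : ℤ) = g * b1 := hb1
      have e2 : (w : ℤ) = g * b2 := hb2
      rw [← e1, ← e2]
      rw [mul_add, ← mul_assoc, ← mul_assoc, ← e1, ← e2]
    exact mul_left_cancel₀ hg0 this
  refine ⟨(b1, b2), fun P => (P.1 - P0.1) * Int.gcdA u w + (P.2 - P0.2) * Int.gcdB u w,
    ⟨Int.gcdA u w, Int.gcdB u w, by linarith⟩, ?_⟩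
  have key : ∀ P ∈ X, b1 * (P.2 - P0.2) = b2 * (P.1 - P0.1) := by
    intro P hP
    have h1 := h P0 hP0 P1 hP1 P hP
    rw [← hu, ← hw, hb1, hb2] at h1
    have h2 : g * (b1 * (P.2 - P0.2)) = g * (b2 * (P.1 - P0.1)) := by linarith
    exact mul_left_cancel₀ hg0 h2
  intro P hP P' hP'
  have k1 := key P hP
  have k2 := key P' hP'
  simp only
  constructor
  · linear_combination (P'.1 - P.1) * hcop + (Int.gcdB u w) * (k2 - k1)
  · linear_combination (P'.2 - P.2) * hcop + (Int.gcdA u w) * (k1 - k2)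

/-- counting separated integers, with possibly degenerate separation -/
lemma card_gap (T : Finset ℤ) {L M : ℝ} (hL : 0 ≤ L) (hM : 0 ≤ M)
    (h : ∀ t ∈ T, ∀ t' ∈ T, t ≠ t' → 1 ≤ |((t - t' : ℤ) : ℝ)| * M ∧ |((t - t' : ℤ) : ℝ)| ≤ L) :
    (T.card : ℝ) ≤ 1 + L * M := by
  classical
  rcases hM.eq_or_lt with hM0 | hM0
  · have : T.card ≤ 1 := by
      refine Finset.card_le_one.2 fun t ht t' ht' => ?_
      by_contra hne
      have := (h t ht t' ht' hne).1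
      rw [← hM0, mul_zero] at this
      linarith
    have h1 : (T.card : ℝ) ≤ 1 := by exact_mod_cast this
    rw [← hM0, mul_zero, add_zero]
    exact h1
  · have := Pool.Agent.H951R3.W.card_sep T (g := 1 / M) (L := L) (by positivity) hL
      (fun t ht t' ht' hne => ⟨by
        rw [div_le_iff₀ hM0]
        exact (h t ht t' ht' hne).1, (h t ht t' ht' hne).2⟩)
    rwa [div_div_eq_mul_div, div_one] at this

lemma padic_coprime {p : ℕ} (hp : p.Prime) {t b1 b2 : ℤ} (hb : IsCoprime b1 b2) {R : ℝ}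
    (h1 : (padicNorm p ((t * b1 : ℤ) : ℚ) : ℝ) ≤ R) (h2 : (padicNorm p ((t * b2 : ℤ) : ℚ) : ℝ) ≤ R) :
    (padicNorm p (t : ℚ) : ℝ) ≤ R := by
  have : Fact p.Prime := ⟨hp⟩
  by_cases hd : (p : ℤ) ∣ b1
  · have hd2 : ¬ (p : ℤ) ∣ b2 := fun hd2 => by
      have := hb.isUnit_of_dvd' hd hd2
      exact (Nat.prime_iff_prime_int.1 hp).not_isUnit this
    have : padicNorm p (b2 : ℚ) = 1 := (padicNorm.int_eq_one_iff b2).2 hd2
    push_cast at h2
    rw [padicNorm.mul, this, mul_one] at h2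
    exact h2
  · have : padicNorm p (b1 : ℚ) = 1 := (padicNorm.int_eq_one_iff b1).2 hd
    push_cast at h1
    rw [padicNorm.mul, this, mul_one] at h1
    exact h1

/-- lower bound for the norm of an integer -/
lemma padic_lower {q : ℕ} (hq : q.Prime) {n : ℤ} (hn : n ≠ 0) :
    1 ≤ |(n : ℝ)| * (padicNorm q (n : ℚ) : ℝ) := by
  have := Pool.Agent.H951R3.W.prod_padic_int {q} (by simpa using hq) n hn
  simpa using this

lemma prod_bound (V : Finset (Option ℕ)) (r : Option ℕ → ℝ) (hr : ∀ v, 0 ≤ r v) :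
    (if none ∈ V then 2 * r none else 2) * ∏ p ∈ eraseNone V, (2 * r (some p)) ≤
      2 ^ (V.card + 1) * ∏ v ∈ V, r v := by
  classical
  have hmap : ∏ p ∈ eraseNone V, (2 * r (some p)) = ∏ v ∈ V.erase none, (2 * r v) := by
    rw [← Finset.map_some_eraseNone, Finset.prod_map]
    rfl
  rw [hmap]
  by_cases hn : none ∈ V
  · rw [if_pos hn, Finset.mul_prod_erase V (fun v => 2 * r v) hn, Finset.prod_mul_distrib,
      Finset.prod_const]
    have h0 : 0 ≤ ∏ v ∈ V, r v := Finset.prod_nonneg fun v _ => hr v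
    refine mul_le_mul_of_nonneg_right ?_ h0
    exact pow_le_pow_right₀ (by norm_num) (by omega)
  · rw [if_neg hn, Finset.erase_eq_of_notMem hn, Finset.prod_mul_distrib, Finset.prod_const,
      pow_succ]
    apply le_of_eq
    ring

/-- the count in one class -/
lemma class_count (S : Finset ℕ) (hS : ∀ p ∈ S, p.Prime) (V : Finset (Option ℕ))
    (hV : V ⊆ insertNone S) (B : ℝ) (hB : 1 ≤ B) (r : Option ℕ → ℝ) (hr : ∀ v, 0 ≤ r v)
    (b : ℤ × ℤ) (hb : IsCoprime b.1 b.2) (f : ℤ × ℤ → ℤ) (Y : Finset (ℤ × ℤ))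
    (hbox : ∀ P ∈ Y, |(P.1 : ℝ)| ≤ B ∧ |(P.2 : ℝ)| ≤ B)
    (hf : ∀ P ∈ Y, ∀ P' ∈ Y, P.1 - P'.1 = (f P - f P') * b.1 ∧ P.2 - P'.2 = (f P - f P') * b.2)
    (hn : ∀ v ∈ V, ∀ P ∈ Y, ∀ P' ∈ Y,
      nval v B 1 (P.1 - P'.1) ≤ 2 * r v ∧ nval v B 1 (P.2 - P'.2) ≤ 2 * r v) :
    (Y.card : ℝ) ≤ 1 + B * ((if none ∈ V then 2 * r none else 2) *
      ∏ p ∈ eraseNone V, (2 * r (some p))) ∧
    (∀ (w : Option ℕ) (a0 a1 : ℤ) (A ε : ℝ), w ∈ insertNone S → w ∉ V → |(a0 : ℝ)| ≤ A →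
      |(a1 : ℝ)| ≤ A → 0 ≤ ε → a0 * b.1 + a1 * b.2 ≠ 0 →
      (∀ P ∈ Y, ∀ P' ∈ Y, nval w B 1 (a0 * (P.1 - P'.1) + a1 * (P.2 - P'.2)) ≤ ε) →
      (Y.card : ℝ) ≤ 1 + B * ((if none ∈ V then 2 * r none else 2) *
      ∏ p ∈ eraseNone V, (2 * r (some p))) * ((2 * A + 1) * ε)) := by
  classical
  set Ri : ℝ := if none ∈ V then 2 * r none else 2 with hRi
  set Mf : ℝ := ∏ p ∈ eraseNone V, (2 * r (some p)) with hMf
  have hB0 : 0 < B := by linarith
  have hRi0 : 0 ≤ Ri := by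
    rw [hRi]; split_ifs
    · have := hr none; linarith
    · norm_num
  have hMf0 : 0 ≤ Mf := Finset.prod_nonneg fun p _ => by have := hr (some p); linarith
  set β : ℝ := max |(b.1 : ℝ)| |(b.2 : ℝ)| with hβ
  have hb0 : b.1 ≠ 0 ∨ b.2 ≠ 0 := by
    by_contra hcon
    push Not at hcon
    rw [hcon.1, hcon.2] at hb
    exact not_isCoprime_zero_zero hb
  have hβ1 : 1 ≤ β := by
    rcases hb0 with h | h
    · refine le_trans ?_ (le_max_left _ _)
      rw [← Int.cast_abs]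
      exact_mod_cast Int.one_le_abs h
    · refine le_trans ?_ (le_max_right _ _)
      rw [← Int.cast_abs]
      exact_mod_cast Int.one_le_abs h
  have hβ0 : 0 < β := by linarith
  -- injectivity
  have hinj : Set.InjOn f (Y : Set (ℤ × ℤ)) := by
    intro P hP P' hP' h
    have := hf P hP P' hP'
    rw [h, sub_self, zero_mul, zero_mul] at this
    apply Prod.ext
    · linarith [this.1]
    · linarith [this.2]
  have hcard : (Y.image f).card = Y.card := Finset.card_image_of_injOn hinj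
  -- size
  have hsize : ∀ P ∈ Y, ∀ P' ∈ Y, |((f P - f P' : ℤ) : ℝ)| * β ≤ Ri * B := by
    intro P hP P' hP'
    have h1 := hf P hP P' hP'
    have hA : |((P.1 - P'.1 : ℤ) : ℝ)| ≤ Ri * B ∧ |((P.2 - P'.2 : ℤ) : ℝ)| ≤ Ri * B := by
      rw [hRi]
      split_ifs with hno
      · have := hn none hno P hP P' hP'
        simp only [nval, pow_one] at this
        exact ⟨(div_le_iff₀ hB0).1 this.1, (div_le_iff₀ hB0).1 this.2⟩
      · have c1 := hbox P hP
        have c2 := hbox P' hP'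
        push_cast
        constructor
        · exact (abs_sub _ _).trans (by linarith [c1.1, c2.1])
        · exact (abs_sub _ _).trans (by linarith [c1.2, c2.2])
    rw [h1.1, h1.2] at hA
    push_cast at hA ⊢
    rw [abs_mul, abs_mul] at hA
    rcases max_choice |(b.1 : ℝ)| |(b.2 : ℝ)| with hm | hm
    · rw [hβ, hm]; exact hA.1
    · rw [hβ, hm]; exact hA.2
  -- primes of V
  have hVS : ∀ p ∈ eraseNone V, p ∈ S := by
    intro p hp
    have := hV (Finset.mem_eraseNone.1 hp)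
    exact Finset.some_mem_insertNone.1 this
  have hpV : ∀ P ∈ Y, ∀ P' ∈ Y, ∀ p ∈ eraseNone V,
      (padicNorm p ((f P - f P' : ℤ) : ℚ) : ℝ) ≤ 2 * r (some p) := by
    intro P hP P' hP' p hp
    have h1 := hf P hP P' hP'
    have h2 := hn (some p) (Finset.mem_eraseNone.1 hp) P hP P' hP'
    simp only [nval] at h2
    rw [h1.1, h1.2] at h2
    exact padic_coprime (hS p (hVS p hp)) hb h2.1 h2.2
  have hprodV : ∀ P ∈ Y, ∀ P' ∈ Y,
      ∏ p ∈ eraseNone V, (padicNorm p ((f P - f P' : ℤ) : ℚ) : ℝ) ≤ Mf := by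
    intro P hP P' hP'
    refine Finset.prod_le_prod (fun p _ => ?_) (fun p hp => hpV P hP P' hP' p hp)
    have := padicNorm.nonneg (p := p) ((f P - f P' : ℤ) : ℚ)
    exact_mod_cast this
  have hlow : ∀ P ∈ Y, ∀ P' ∈ Y, f P ≠ f P' → 1 ≤ |((f P - f P' : ℤ) : ℝ)| * Mf := by
    intro P hP P' hP' hne
    have h1 := Pool.Agent.H951R3.W.prod_padic_int (eraseNone V) (fun p hp => hS p (hVS p hp))
      (f P - f P') (sub_ne_zero.2 hne)
    exact h1.trans (mul_le_mul_of_nonneg_left (hprodV P hP P' hP') (abs_nonneg _))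
  constructor
  · have := card_gap (Y.image f) (L := Ri * B) (M := Mf) (by positivity) hMf0 ?_
    · rw [hcard] at this
      calc (Y.card : ℝ) ≤ _ := this
        _ = _ := by ring
    · intro t ht t' ht' hne
      obtain ⟨P, hP, rfl⟩ := Finset.mem_image.1 ht
      obtain ⟨P', hP', rfl⟩ := Finset.mem_image.1 ht'
      refine ⟨hlow P hP P' hP' hne, ?_⟩
      have := hsize P hP P' hP'
      have h0 := abs_nonneg ((f P - f P' : ℤ) : ℝ)
      nlinarith
  · intro w a0 a1 A ε hwS hwV ha0 ha1 hε hl hw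
    have hA0 : 0 ≤ A := (abs_nonneg _).trans ha0
    have hform : ∀ P ∈ Y, ∀ P' ∈ Y, a0 * (P.1 - P'.1) + a1 * (P.2 - P'.2) =
        (f P - f P') * (a0 * b.1 + a1 * b.2) := by
      intro P hP P' hP'
      have h1 := hf P hP P' hP'
      rw [h1.1, h1.2]; ring
    cases w with
    | none =>
      have hRi2 : Ri = 2 := by rw [hRi, if_neg hwV]
      have := card_gap (Y.image f) (L := ε * B) (M := Mf) (by positivity) hMf0 ?_
      · rw [hcard] at this
        rw [hRi2]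
        have h3 : 0 ≤ B * Mf * ε := by positivity
        have h4 : 0 ≤ B * Mf * ε * A := by positivity
        calc (Y.card : ℝ) ≤ _ := this
          _ ≤ _ := by nlinarith
      · intro t ht t' ht' hne
        obtain ⟨P, hP, rfl⟩ := Finset.mem_image.1 ht
        obtain ⟨P', hP', rfl⟩ := Finset.mem_image.1 ht'
        refine ⟨hlow P hP P' hP' hne, ?_⟩
        have h1 := hw P hP P' hP'
        rw [hform P hP P' hP'] at h1
        simp only [nval, pow_one] at h1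
        have h2 := (div_le_iff₀ hB0).1 h1
        push_cast at h2 ⊢
        rw [abs_mul] at h2
        have h3 : 1 ≤ |((a0 : ℝ) * b.1 + a1 * b.2)| := by
          have : (1 : ℤ) ≤ |a0 * b.1 + a1 * b.2| := Int.one_le_abs hl
          exact_mod_cast this
        have h0 := abs_nonneg ((f P : ℝ) - f P')
        nlinarith
    | some q =>
      have hqS : q ∈ S := Finset.some_mem_insertNone.1 hwS
      have hq : q.Prime := hS q hqS
      have : Fact q.Prime := ⟨hq⟩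
      have hlb : |((a0 * b.1 + a1 * b.2 : ℤ) : ℝ)| ≤ 2 * A * β := by
        push_cast
        refine (abs_add_le _ _).trans ?_
        rw [abs_mul, abs_mul]
        have e1 : |(a0 : ℝ)| * |(b.1 : ℝ)| ≤ A * β :=
          mul_le_mul ha0 (le_max_left _ _) (abs_nonneg _) hA0
        have e2 : |(a1 : ℝ)| * |(b.2 : ℝ)| ≤ A * β :=
          mul_le_mul ha1 (le_max_right _ _) (abs_nonneg _) hA0
        linarith
      have hq1 : ∀ P ∈ Y, ∀ P' ∈ Y,
          (padicNorm q ((f P - f P' : ℤ) : ℚ) : ℝ) ≤ ε * (2 * A * β) := by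
        intro P hP P' hP'
        have h1 := hw P hP P' hP'
        rw [hform P hP P' hP'] at h1
        simp only [nval] at h1
        rw [Int.cast_mul, padicNorm.mul] at h1
        push_cast only [Rat.cast_mul] at h1
        have h2 := padic_lower hq hl
        have h3 : (0 : ℝ) ≤ (padicNorm q ((f P - f P' : ℤ) : ℚ) : ℝ) := by
          have := padicNorm.nonneg (p := q) ((f P - f P' : ℤ) : ℚ)
          exact_mod_cast this
        have h4 : (0 : ℝ) ≤ (padicNorm q ((a0 * b.1 + a1 * b.2 : ℤ) : ℚ) : ℝ) := by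
          have := padicNorm.nonneg (p := q) ((a0 * b.1 + a1 * b.2 : ℤ) : ℚ)
          exact_mod_cast this
        calc (padicNorm q ((f P - f P' : ℤ) : ℚ) : ℝ)
            ≤ (padicNorm q ((f P - f P' : ℤ) : ℚ) : ℝ) * (|((a0 * b.1 + a1 * b.2 : ℤ) : ℝ)| *
              (padicNorm q ((a0 * b.1 + a1 * b.2 : ℤ) : ℚ) : ℝ)) := le_mul_of_one_le_right h3 h2
          _ = ((padicNorm q ((f P - f P' : ℤ) : ℚ) : ℝ) *
              (padicNorm q ((a0 * b.1 + a1 * b.2 : ℤ) : ℚ) : ℝ)) *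
              |((a0 * b.1 + a1 * b.2 : ℤ) : ℝ)| := by ring
          _ ≤ ε * (2 * A * β) := mul_le_mul h1 hlb (abs_nonneg _) hε
      have hqV : q ∉ eraseNone V := fun h => hwV (Finset.mem_eraseNone.1 h)
      have := card_gap (Y.image f) (L := Ri * B / β) (M := Mf * (ε * (2 * A * β))) (by positivity)
        (by positivity) ?_
      · rw [hcard] at this
        have e : Ri * B / β * (Mf * (ε * (2 * A * β))) = B * (Ri * Mf) * (2 * A * ε) := by
          field_simp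
        rw [e] at this
        have h3 : 0 ≤ B * (Ri * Mf) * ε := by positivity
        calc (Y.card : ℝ) ≤ _ := this
          _ ≤ _ := by nlinarith
      · intro t ht t' ht' hne
        obtain ⟨P, hP, rfl⟩ := Finset.mem_image.1 ht
        obtain ⟨P', hP', rfl⟩ := Finset.mem_image.1 ht'
        constructor
        · have h1 := Pool.Agent.H951R3.W.prod_padic_int (insert q (eraseNone V)) (fun p hp => by
            rcases Finset.mem_insert.1 hp with rfl | hp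
            · exact hq
            · exact hS p (hVS p hp)) (f P - f P') (sub_ne_zero.2 hne)
          rw [Finset.prod_insert hqV] at h1
          refine h1.trans (mul_le_mul_of_nonneg_left ?_ (abs_nonneg _))
          rw [mul_comm]
          refine mul_le_mul (hprodV P hP P' hP') (hq1 P hP P' hP') ?_ hMf0
          have := padicNorm.nonneg (p := q) ((f P - f P' : ℤ) : ℚ)
          exact_mod_cast this
        · rw [le_div_iff₀ hβ0]
          exact hsize P hP P' hP'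

/-- `S_GCL` with `0 ≤ ε` -/
theorem gcl (S : Finset ℕ) (hS : ∀ p ∈ S, p.Prime) (V : Finset (Option ℕ))
    (hV : V ⊆ insertNone S) (A : ℕ) :
  ∃ C : ℝ, 1 ≤ C ∧ ∀ (B : ℝ), 1 ≤ B → ∀ (r : Option ℕ → ℝ) (X : Finset (ℤ × ℤ)),
    (∀ v, 0 ≤ r v) → (∀ P ∈ X, |(P.1 : ℝ)| ≤ B ∧ |(P.2 : ℝ)| ≤ B) →
    (∀ P ∈ X, ∀ P' ∈ X, ∀ P'' ∈ X,
      (P'.1 - P.1) * (P''.2 - P.2) - (P'.2 - P.2) * (P''.1 - P.1) = 0) →
    (∀ v ∈ V, ∀ P ∈ X, ∀ P' ∈ X, ∀ P'' ∈ X,
      (nval v B 1 (P'.1 - P.1) ≤ r v ∧ nval v B 1 (P'.2 - P.2) ≤ r v) ∨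
      (nval v B 1 (P''.1 - P.1) ≤ r v ∧ nval v B 1 (P''.2 - P.2) ≤ r v) ∨
      (nval v B 1 (P''.1 - P'.1) ≤ r v ∧ nval v B 1 (P''.2 - P'.2) ≤ r v)) →
    (X.card : ℝ) ≤ C * (1 + B * ∏ v ∈ V, r v) ∧
    (∀ (v0 v1 : Option ℕ) (a0 a1 b0 b1 : ℤ) (ε : ℝ), 0 ≤ ε → v0 ∈ insertNone S →
      v1 ∈ insertNone S →
      v0 ∉ V → v1 ∉ V → |a0| ≤ A → |a1| ≤ A → |b0| ≤ A → |b1| ≤ A → a0 * b1 - a1 * b0 ≠ 0 →
      (∀ P ∈ X, ∀ P' ∈ X, nval v0 B 1 (a0 * (P'.1 - P.1) + a1 * (P'.2 - P.2)) ≤ ε) →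
      (∀ P ∈ X, ∀ P' ∈ X, nval v1 B 1 (b0 * (P'.1 - P.1) + b1 * (P'.2 - P.2)) ≤ ε) →
      (X.card : ℝ) ≤ C * (1 + B * (∏ v ∈ V, r v) * ε)) := by
  classical
  have hA0 : (0 : ℝ) ≤ A := Nat.cast_nonneg A
  have hpow : (1 : ℝ) ≤ 2 ^ V.card := one_le_pow₀ (by norm_num)
  have hCge : (1 : ℝ) ≤ 2 ^ V.card * 2 ^ (V.card + 1) * (2 * A + 1) := by
    have h1 : (1 : ℝ) ≤ 2 ^ (V.card + 1) := one_le_pow₀ (by norm_num)
    have h2 : (1 : ℝ) ≤ 2 * A + 1 := by linarith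
    calc (1 : ℝ) = 1 * 1 * 1 := by ring
      _ ≤ _ := by gcongr
  refine ⟨2 ^ V.card * 2 ^ (V.card + 1) * (2 * A + 1), hCge, ?_⟩
  intro B hB r X hr hbox hdet hnear
  have hB0 : 0 < B := by linarith
  have hPr : 0 ≤ ∏ v ∈ V, r v := Finset.prod_nonneg fun v _ => hr v
  have hprime : ∀ v ∈ V, ∀ p, v = some p → p.Prime := by
    intro v hv p hp
    rw [hp] at hv
    exact hS p (Finset.some_mem_insertNone.1 (hV hv))
  by_cases hX : 2 ≤ X.card
  swap
  · have h1 : (X.card : ℝ) ≤ 1 := by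
      have : X.card ≤ 1 := by omega
      exact_mod_cast this
    constructor
    · have : 0 ≤ B * ∏ v ∈ V, r v := by positivity
      nlinarith
    · intro v0 v1 a0 a1 b0 b1 ε hε _ _ _ _ _ _ _ _ _ _ _
      have : 0 ≤ B * (∏ v ∈ V, r v) * ε := by positivity
      nlinarith
  obtain ⟨b, f, hb, hf⟩ := line_param X hX hdet
  -- colourings
  have hcol : ∀ v ∈ V, ∃ col : ℤ × ℤ → Prop, ∀ P ∈ X, ∀ P' ∈ X, (col P ↔ col P') →
      (nval v B 1 (P.1 - P'.1) ≤ 2 * r v ∧ nval v B 1 (P.2 - P'.2) ≤ 2 * r v) := by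
    intro v hv
    obtain ⟨col, hc⟩ := two_col X
      (fun P P' => nval v B 1 (P'.1 - P.1) ≤ r v ∧ nval v B 1 (P'.2 - P.2) ≤ r v)
      (fun P P' h => by
        rw [← nval_neg, neg_sub] at h
        rw [← nval_neg v B 1 (P'.2 - P.2), neg_sub] at h
        exact h)
      (hnear v hv)
    refine ⟨col, fun P hP P' hP' hcc => ?_⟩
    rcases hc P hP P' hP' hcc with h | ⟨c, hcX, h1, h2⟩
    · rw [← nval_neg v B 1 (P.1 - P'.1), ← nval_neg v B 1 (P.2 - P'.2), neg_sub, neg_sub]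
      have := hr v
      exact ⟨by linarith [h.1], by linarith [h.2]⟩
    · rw [← nval_neg v B 1 (P.1 - P'.1), ← nval_neg v B 1 (P.2 - P'.2), neg_sub, neg_sub]
      have e1 : P'.1 - P.1 = (P'.1 - c.1) + (c.1 - P.1) := by ring
      have e2 : P'.2 - P.2 = (P'.2 - c.2) + (c.2 - P.2) := by ring
      rw [e1, e2]
      have t1 := nval_tri v (hprime v hv) hB0.le 1 (P'.1 - c.1) (c.1 - P.1)
      have t2 := nval_tri v (hprime v hv) hB0.le 1 (P'.2 - c.2) (c.2 - P.2)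
      exact ⟨by linarith [h1.1, h2.1], by linarith [h1.2, h2.2]⟩
  have hpb := prod_bound V r hr
  have hcc : ∀ Y ⊆ X, (∀ v ∈ V, ∀ P ∈ Y, ∀ P' ∈ Y,
      (nval v B 1 (P.1 - P'.1) ≤ 2 * r v ∧ nval v B 1 (P.2 - P'.2) ≤ 2 * r v)) → _ :=
    fun Y hY hD => class_count S hS V hV B hB r hr b hb f Y (fun P hP => hbox P (hY hP))
      (fun P hP P' hP' => hf P (hY hP) P' (hY hP')) hD
  constructor
  · have h1 := card_classes V (fun v P P' =>
      (nval v B 1 (P.1 - P'.1) ≤ 2 * r v ∧ nval v B 1 (P.2 - P'.2) ≤ 2 * r v))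
      (1 + B * (2 ^ (V.card + 1) * ∏ v ∈ V, r v)) X hcol (fun Y hY hD => by
        refine ((hcc Y hY hD).1).trans ?_
        gcongr)
    refine h1.trans ?_
    have h2 : (1 : ℝ) ≤ 2 ^ (V.card + 1) := one_le_pow₀ (by norm_num)
    calc (2 : ℝ) ^ V.card * (1 + B * (2 ^ (V.card + 1) * ∏ v ∈ V, r v))
        ≤ 2 ^ V.card * (2 ^ (V.card + 1) + B * (2 ^ (V.card + 1) * ∏ v ∈ V, r v)) := by gcongr
      _ = 2 ^ V.card * 2 ^ (V.card + 1) * 1 * (1 + B * ∏ v ∈ V, r v) := by ring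
      _ ≤ 2 ^ V.card * 2 ^ (V.card + 1) * (2 * A + 1) * (1 + B * ∏ v ∈ V, r v) := by
        gcongr
        linarith
  · intro v0 v1 a0 a1 b0 b1 ε hε hv0S hv1S hv0 hv1 ha0 ha1 hb0 hb1 hdet0 h0 h1
    have castA : ∀ {z : ℤ}, |z| ≤ (A : ℤ) → |(z : ℝ)| ≤ (A : ℝ) := fun {z} hz => by
      have : ((|z| : ℤ) : ℝ) ≤ ((A : ℤ) : ℝ) := by exact_mod_cast hz
      rwa [Int.cast_abs, Int.cast_natCast] at this
    have hsel : ∃ (w : Option ℕ) (c0 c1 : ℤ), w ∈ insertNone S ∧ w ∉ V ∧ |(c0 : ℝ)| ≤ A ∧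
        |(c1 : ℝ)| ≤ A ∧ c0 * b.1 + c1 * b.2 ≠ 0 ∧
        ∀ P ∈ X, ∀ P' ∈ X, nval w B 1 (c0 * (P.1 - P'.1) + c1 * (P.2 - P'.2)) ≤ ε := by
      by_cases hl : a0 * b.1 + a1 * b.2 = 0
      · refine ⟨v1, b0, b1, hv1S, hv1, castA hb0, castA hb1, ?_, fun P hP P' hP' => h1 P' hP' P hP⟩
        intro hl2
        have e1 : (a0 * b1 - a1 * b0) * b.1 = 0 := by linear_combination b1 * hl - a1 * hl2
        have e2 : (a0 * b1 - a1 * b0) * b.2 = 0 := by linear_combination a0 * hl2 - b0 * hl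
        have z1 := (mul_eq_zero.1 e1).resolve_left hdet0
        have z2 := (mul_eq_zero.1 e2).resolve_left hdet0
        rw [z1, z2] at hb
        exact not_isCoprime_zero_zero hb
      · exact ⟨v0, a0, a1, hv0S, hv0, castA ha0, castA ha1, hl, fun P hP P' hP' => h0 P' hP' P hP⟩
    obtain ⟨w, c0, c1, hwS, hwV, hc0, hc1, hl, hw⟩ := hsel
    have h1 := card_classes V (fun v P P' =>
      (nval v B 1 (P.1 - P'.1) ≤ 2 * r v ∧ nval v B 1 (P.2 - P'.2) ≤ 2 * r v))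
      (1 + B * (2 ^ (V.card + 1) * ∏ v ∈ V, r v) * ((2 * A + 1) * ε)) X hcol (fun Y hY hD => by
        refine ((hcc Y hY hD).2 w c0 c1 A ε hwS hwV hc0 hc1 hε hl
          (fun P hP P' hP' => hw P (hY hP) P' (hY hP'))).trans ?_
        gcongr)
    refine h1.trans ?_
    have h2 : (1 : ℝ) ≤ 2 ^ (V.card + 1) := one_le_pow₀ (by norm_num)
    have h3 : (1 : ℝ) ≤ 2 * A + 1 := by linarith
    calc (2 : ℝ) ^ V.card * (1 + B * (2 ^ (V.card + 1) * ∏ v ∈ V, r v) * ((2 * A + 1) * ε))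
        ≤ 2 ^ V.card * (2 ^ (V.card + 1) * (2 * A + 1) +
          B * (2 ^ (V.card + 1) * ∏ v ∈ V, r v) * ((2 * A + 1) * ε)) := by
          gcongr
          nlinarith
      _ = 2 ^ V.card * 2 ^ (V.card + 1) * (2 * A + 1) * (1 + B * (∏ v ∈ V, r v) * ε) := by ring

/-- `Pool.Agent.K1H59.VX.S_GCL` with `0 ≤ ε` in the second claim -/
def S_GCL0 : Prop :=
  ∀ (S : Finset ℕ), (∀ p ∈ S, p.Prime) → ∀ V : Finset (Option ℕ), V ⊆ insertNone S → ∀ A : ℕ,
  ∃ C : ℝ, 1 ≤ C ∧ ∀ (B : ℝ), 1 ≤ B → ∀ (r : Option ℕ → ℝ) (X : Finset (ℤ × ℤ)),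
    (∀ v, 0 ≤ r v) → (∀ P ∈ X, |(P.1 : ℝ)| ≤ B ∧ |(P.2 : ℝ)| ≤ B) →
    (∀ P ∈ X, ∀ P' ∈ X, ∀ P'' ∈ X,
      (P'.1 - P.1) * (P''.2 - P.2) - (P'.2 - P.2) * (P''.1 - P.1) = 0) →
    (∀ v ∈ V, ∀ P ∈ X, ∀ P' ∈ X, ∀ P'' ∈ X,
      (nval v B 1 (P'.1 - P.1) ≤ r v ∧ nval v B 1 (P'.2 - P.2) ≤ r v) ∨
      (nval v B 1 (P''.1 - P.1) ≤ r v ∧ nval v B 1 (P''.2 - P.2) ≤ r v) ∨
      (nval v B 1 (P''.1 - P'.1) ≤ r v ∧ nval v B 1 (P''.2 - P'.2) ≤ r v)) →
    (X.card : ℝ) ≤ C * (1 + B * ∏ v ∈ V, r v) ∧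
    (∀ (v0 v1 : Option ℕ) (a0 a1 b0 b1 : ℤ) (ε : ℝ), 0 ≤ ε → v0 ∈ insertNone S →
      v1 ∈ insertNone S →
      v0 ∉ V → v1 ∉ V → |a0| ≤ A → |a1| ≤ A → |b0| ≤ A → |b1| ≤ A → a0 * b1 - a1 * b0 ≠ 0 →
      (∀ P ∈ X, ∀ P' ∈ X, nval v0 B 1 (a0 * (P'.1 - P.1) + a1 * (P'.2 - P.2)) ≤ ε) →
      (∀ P ∈ X, ∀ P' ∈ X, nval v1 B 1 (b0 * (P'.1 - P.1) + b1 * (P'.2 - P.2)) ≤ ε) →
      (X.card : ℝ) ≤ C * (1 + B * (∏ v ∈ V, r v) * ε))

theorem t_GCL0 : S_GCL0 := fun S hS V hV A => gcl S hS V hV A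

end Pool.Agent.K1H31.VX
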